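import Pool.Agent.Run7.h820.UM.Asm
import Pool.Agent.Run7.h623.UM.CMP

/-! The universal map. -/

set_option autoImplicit false

namespace Run7.h820.UM

open Q90.SM (IsSig)

theorem universal {ψ₁ h₁ : ℂ → ℂ} {δ : ℝ} (hS : IsSig ψ₁ h₁) (hδ : 0 < δ) :
    ∃ ψ₀ h₀ : ℂ → ℂ, IsSig ψ₀ h₀ ∧ (∀ z : ℂ, 1 + δ ≤ ‖z‖ → ‖h₀ z - h₁ z‖ ≤ δ) ∧ Uni h₀ :=
  universal_of Pool.Agent.Run7.h623.UM.t_CMP hS hδ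

end Run7.h820.UM
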