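import Pool.Agent.Run7.h820.UM.Stm

/-! The limit of a fast Cauchy sequence in `Σ`. -/

set_option autoImplicit false
open Complex Filter Topology Set Metric MeasureTheory

namespace Run7.h820.UM

open Q90.SM (IsSig marshall pmean circ FF)
open Pool.Agent.W677.Mar (Sg IsG0 NN hat hat_zero hat_ne inv_ext)

theorem eta_le {η : ℕ → ℝ} (h : ∀ k, η (k + 1) ≤ η k / 2) (k j : ℕ) : η (k + j) ≤ η k / 2 ^ j := by
  induction j with
  | zero => simp
  | succ j ih =>
    have h1 := h (k + j)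
    have e : η k / 2 ^ (j + 1) = η k / 2 ^ j / 2 := by rw [pow_succ, div_div]
    rw [e, ← add_assoc]
    linarith

theorem eta_tendsto {η : ℕ → ℝ} (h0 : ∀ k, 0 < η k) (h : ∀ k, η (k + 1) ≤ η k / 2) : Tendsto η atTop (𝓝 0) := by
  have h1 : Tendsto (fun j : ℕ => η 0 * (1 / 2 : ℝ) ^ j) atTop (𝓝 (η 0 * 0)) :=
    (tendsto_pow_atTop_nhds_zero_of_lt_one (by norm_num) (by norm_num)).const_mul _
  rw [mul_zero] at h1
  refine squeeze_zero (fun k => (h0 k).le) (fun k => ?_) h1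
  have h2 := eta_le h 0 k
  rw [zero_add] at h2
  refine h2.trans (le_of_eq ?_)
  rw [one_div, inv_pow]
  rfl

theorem disc_lim {F : ℕ → ℂ → ℂ} {η : ℕ → ℝ} (h0 : ∀ k, 0 < η k) (hh : ∀ k, η (k + 1) ≤ η k / 2)
    (hF : ∀ k, DifferentiableOn ℂ (F k) (ball 0 1))
    (hc : ∀ k v, ‖v‖ ≤ 1 / (1 + η k) → ‖F (k + 1) v - F k v‖ ≤ η k) :
    ∃ G : ℂ → ℂ, TendstoLocallyUniformlyOn F G atTop (ball 0 1) ∧ (∀ v ∈ ball (0:ℂ) 1, Tendsto (fun k => F k v) atTop (𝓝 (G v))) ∧
      ∀ k v, ‖v‖ ≤ 1 / (1 + η k) → ‖G v - F k v‖ ≤ 2 * η k := by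
  have hη := eta_tendsto h0 hh
  have hmono : ∀ k j, 1 / (1 + η k) ≤ 1 / (1 + η (k + j)) := by
    intro k j
    have h1 := eta_le hh k j
    have h2 : η k / 2 ^ j ≤ η k := div_le_self (h0 k).le (one_le_pow₀ (by norm_num))
    exact one_div_le_one_div_of_le (by linarith [h0 (k + j)]) (by linarith)
  have hstep : ∀ k v, ‖v‖ ≤ 1 / (1 + η k) → ∀ j, dist (F (k + j) v) (F (k + (j + 1)) v) ≤ 2 * η k / 2 / 2 ^ j := by
    intro k v hv j
    rw [dist_comm, dist_eq_norm]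
    refine (hc (k + j) v (hv.trans (hmono k j))).trans ?_
    refine (eta_le hh k j).trans (le_of_eq ?_)
    congr 1
    ring
  have hlim : ∀ v ∈ ball (0:ℂ) 1, ∃ a : ℂ, Tendsto (fun k => F k v) atTop (𝓝 a) := by
    intro v hv
    rw [mem_ball_zero_iff] at hv
    obtain ⟨k, hk⟩ : ∃ k, ‖v‖ ≤ 1 / (1 + η k) := by
      have h1 : Tendsto (fun k => 1 / (1 + η k)) atTop (𝓝 (1 / (1 + 0))) := tendsto_const_nhds.div (hη.const_add 1) (by norm_num)
      rw [add_zero, div_one] at h1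
      exact ((h1.eventually_const_lt hv).exists).imp fun _ h => h.le
    have h2 := cauchySeq_of_le_geometric_two (hstep k v hk)
    obtain ⟨a, ha⟩ := cauchySeq_tendsto_of_complete h2
    refine ⟨a, ?_⟩
    rw [← tendsto_add_atTop_iff_nat k]
    refine ha.congr fun j => ?_
    rw [add_comm]
  set G : ℂ → ℂ := fun v => limUnder atTop (fun k => F k v) with hG
  have hGl : ∀ v ∈ ball (0:ℂ) 1, Tendsto (fun k => F k v) atTop (𝓝 (G v)) := fun v hv => tendsto_nhds_limUnder (hlim v hv)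
  have hGb : ∀ k v, ‖v‖ ≤ 1 / (1 + η k) → ‖G v - F k v‖ ≤ 2 * η k := by
    intro k v hv
    have hv1 : v ∈ ball (0:ℂ) 1 := by
      rw [mem_ball_zero_iff]
      refine lt_of_le_of_lt hv ?_
      rw [div_lt_one (by linarith [h0 k])]
      linarith [h0 k]
    have h1 : Tendsto (fun j => F (k + j) v) atTop (𝓝 (G v)) := by
      have h2 := (tendsto_add_atTop_iff_nat k).2 (hGl v hv1)
      refine h2.congr fun j => ?_
      rw [add_comm]
    have h3 := dist_le_of_le_geometric_two_of_tendsto₀ (hstep k v hv) h1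
    rw [add_zero, dist_comm, dist_eq_norm] at h3
    exact h3
  refine ⟨G, ?_, hGl, hGb⟩
  rw [Metric.tendstoLocallyUniformlyOn_iff]
  intro ε hε v hv
  rw [mem_ball_zero_iff] at hv
  have h1 : Tendsto (fun k => 1 / (1 + η k)) atTop (𝓝 (1 / (1 + 0))) := tendsto_const_nhds.div (hη.const_add 1) (by norm_num)
  rw [add_zero, div_one] at h1
  have h2 : ∀ᶠ k in atTop, (1 + ‖v‖) / 2 < 1 / (1 + η k) := h1.eventually_const_lt (by linarith)
  have h3 : ∀ᶠ k in atTop, 2 * η k < ε := by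
    have h4 : Tendsto (fun k => 2 * η k) atTop (𝓝 (2 * 0)) := hη.const_mul 2
    rw [mul_zero] at h4
    exact h4.eventually_lt_const hε
  refine ⟨ball 0 ((1 + ‖v‖) / 2), mem_nhdsWithin_of_mem_nhds (isOpen_ball.mem_nhds ?_), ?_⟩
  · rw [mem_ball_zero_iff]
    linarith
  · filter_upwards [h2, h3] with k hk1 hk2 w hw
    rw [mem_ball_zero_iff] at hw
    rw [dist_eq_norm]
    exact (hGb k w (hw.le.trans hk1.le)).trans_lt hk2

theorem lim (hDQ : S_DQ) : S_LIM := by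
  intro ψ h η hS h0 hh hη0 hcl
  have hη := eta_tendsto h0 hh
  have hSg : ∀ k, Sg (hat (fun z => ψ k z / z) 1) (hat (h k) 0) := fun k => (Q90.SM.ext_all (ψ k) (h k) (hS k)).1
  have hclose : ∀ k v, ‖v‖ ≤ 1 / (1 + η k) → ‖hat (h (k + 1)) 0 v - hat (h k) 0 v‖ ≤ η k ∧
      ‖hat (fun z => ψ (k + 1) z / z) 1 v - hat (fun z => ψ k z / z) 1 v‖ ≤ η k := by
    intro k v hv
    rcases eq_or_ne v 0 with rfl | hv0
    · rw [hat_zero, hat_zero, hat_zero, hat_zero, sub_self, sub_self, norm_zero]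
      exact ⟨(h0 k).le, (h0 k).le⟩
    · rw [hat_ne _ _ hv0, hat_ne _ _ hv0, hat_ne _ _ hv0, hat_ne _ _ hv0]
      have h1 : 1 + η k ≤ ‖v⁻¹‖ := by
        rw [norm_inv, le_inv_comm₀ (by linarith [h0 k]) (norm_pos_iff.2 hv0), ← one_div]
        exact hv
      obtain ⟨h2, h3⟩ := hcl k v⁻¹ h1
      refine ⟨h2, ?_⟩
      rw [← sub_div, norm_div, div_le_iff₀ (by linarith [h0 k])]
      exact h3
  obtain ⟨H, hH1, hH2, hH3⟩ := disc_lim h0 hh (fun k => (hSg k).dH) (fun k v hv => (hclose k v hv).1)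
  obtain ⟨Y, hY1, hY2, hY3⟩ := disc_lim h0 hh (fun k => (hSg k).G.diff) (fun k v hv => (hclose k v hv).2)
  have hHd : DifferentiableOn ℂ H (ball 0 1) := hH1.differentiableOn (Eventually.of_forall fun k => (hSg k).dH) isOpen_ball
  have hYd : DifferentiableOn ℂ Y (ball 0 1) := hY1.differentiableOn (Eventually.of_forall fun k => (hSg k).G.diff) isOpen_ball
  have hYdl := hY1.deriv (Eventually.of_forall fun k => (hSg k).G.diff) isOpen_ball
  have hz0 : (0:ℂ) ∈ ball (0:ℂ) 1 := by simp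
  have hH0 : H 0 = 0 := by
    refine tendsto_nhds_unique (hH2 0 hz0) ?_
    refine tendsto_const_nhds.congr fun k => ?_
    exact (hat_zero _ _).symm
  have hY0 : Y 0 = 1 := by
    refine tendsto_nhds_unique (hY2 0 hz0) ?_
    refine tendsto_const_nhds.congr fun k => ?_
    exact (hat_zero _ _).symm
  have heq : ∀ w ∈ ball (0:ℂ) 1, Complex.exp (H w) = Y w - w * deriv Y w := by
    intro w hw
    have h1 : Tendsto (fun k => Complex.exp (hat (h k) 0 w)) atTop (𝓝 (Complex.exp (H w))) :=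
      (Complex.continuous_exp.tendsto _).comp (hH2 w hw)
    have h2 : Tendsto (fun k => hat (fun z => ψ k z / z) 1 w - w * deriv (hat (fun z => ψ k z / z) 1) w) atTop
        (𝓝 (Y w - w * deriv Y w)) := (hY2 w hw).sub ((hYdl.tendsto_at hw).const_mul w)
    refine tendsto_nhds_unique h1 (h2.congr fun k => ?_)
    exact ((hSg k).eq w hw).symm
  have hne : ∀ z : ℂ, 1 < ‖z‖ → z ≠ 0 := by
    rintro z hz rfl
    rw [norm_zero] at hz
    linarith
  have hinv : ∀ z : ℂ, 1 < ‖z‖ → z⁻¹ ∈ ball (0:ℂ) 1 := by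
    intro z hz
    rw [mem_ball_zero_iff, norm_inv]
    exact inv_lt_one_of_one_lt₀ hz
  have hψl : ∀ z : ℂ, 1 < ‖z‖ → Tendsto (fun k => ψ k z) atTop (𝓝 (z * Y z⁻¹)) := by
    intro z hz
    refine ((hY2 z⁻¹ (hinv z hz)).const_mul z).congr fun k => ?_
    rw [hat_ne _ _ (inv_ne_zero (hne z hz)), inv_inv]
    have := hne z hz
    field_simp
  have hder : ∀ z : ℂ, 1 < ‖z‖ → HasDerivAt (fun z => z * Y z⁻¹) (Complex.exp (H z⁻¹)) z := by
    intro z hz
    have h1 : HasDerivAt Y (deriv Y z⁻¹) z⁻¹ := ((hYd z⁻¹ (hinv z hz)).differentiableAt (isOpen_ball.mem_nhds (hinv z hz))).hasDerivAt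
    have h2 : HasDerivAt (fun z => Y z⁻¹) (deriv Y z⁻¹ * (-(z ^ 2)⁻¹)) z := h1.comp z (hasDerivAt_inv (hne z hz))
    refine ((hasDerivAt_id z).mul h2).congr_deriv ?_
    rw [heq _ (hinv z hz)]
    have := hne z hz
    simp only [id]
    field_simp
    ring
  refine ⟨fun z => z * Y z⁻¹, fun z => H z⁻¹, ⟨?_, ?_, ?_, ?_, ?_, ?_⟩, ?_⟩
  · intro z hz
    exact (hder z hz).differentiableAt.differentiableWithinAt
  · intro z hz w hw hzw
    have hz1 : 1 < ‖z‖ := hz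
    have hw1 : 1 < ‖w‖ := hw
    set ρ : ℝ := min ‖z‖ ‖w‖ with hρ
    have hρ1 : 1 < ρ := lt_min hz1 hw1
    have h1 : ‖z - w‖ * (1 - 1 / ρ ^ 2) ≤ ‖z * Y z⁻¹ - w * Y w⁻¹‖ := by
      refine ge_of_tendsto ((hψl z hz1).sub (hψl w hw1)).norm (Eventually.of_forall fun k => ?_)
      exact hDQ (ψ k) (h k) (hS k) ρ hρ1 z w (min_le_left _ _) (min_le_right _ _)
    have h2 : z * Y z⁻¹ - w * Y w⁻¹ = 0 := sub_eq_zero.2 hzw
    rw [h2, norm_zero] at h1
    have h3 : 0 < 1 - 1 / ρ ^ 2 := by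
      rw [sub_pos, div_lt_one (by positivity)]
      nlinarith
    have h4 : ‖z - w‖ ≤ 0 := by
      by_contra hcon
      push Not at hcon
      nlinarith [mul_pos hcon h3]
    exact sub_eq_zero.1 (norm_le_zero_iff.1 h4)
  · refine ⟨deriv Y 0, ?_⟩
    have h1 : HasDerivAt Y (deriv Y 0) 0 := ((hYd 0 hz0).differentiableAt (isOpen_ball.mem_nhds hz0)).hasDerivAt
    have h2 : Tendsto (fun z : ℂ => z⁻¹) (Bornology.cobounded ℂ) (𝓝[≠] 0) := tendsto_inv₀_cobounded'
    have h3 := (hasDerivAt_iff_tendsto_slope.1 h1).comp h2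
    refine h3.congr' ?_
    have hne' : ∀ᶠ z : ℂ in Bornology.cobounded ℂ, z ≠ 0 := Bornology.eventually_ne_cobounded 0
    filter_upwards [hne'] with z hz
    simp only [Function.comp, slope_def_field, hY0, sub_zero]
    field_simp
  · intro z hz
    have h1 : DifferentiableAt ℂ (fun z => H z⁻¹) z :=
      ((hHd z⁻¹ (hinv z hz)).differentiableAt (isOpen_ball.mem_nhds (hinv z hz))).comp z (hasDerivAt_inv (hne z hz)).differentiableAt
    exact h1.differentiableWithinAt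
  · intro z hz
    exact (hder z hz).deriv.symm
  · have h2 : Tendsto (fun z : ℂ => z⁻¹) (Bornology.cobounded ℂ) (𝓝 0) := tendsto_inv₀_cobounded
    have h3 : Tendsto H (𝓝 0) (𝓝 (H 0)) := ((hHd 0 hz0).differentiableAt (isOpen_ball.mem_nhds hz0)).continuousAt
    have h4 := h3.comp h2
    rw [hH0] at h4
    exact h4
  · intro k z hz
    have hz1 : 1 < ‖z‖ := by linarith [h0 k]
    have h1 : ‖z⁻¹‖ ≤ 1 / (1 + η k) := by
      rw [norm_inv, ← one_div]
      exact one_div_le_one_div_of_le (by linarith [h0 k]) hz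
    have h2 := hH3 k z⁻¹ h1
    rw [hat_ne _ _ (inv_ne_zero (hne z hz1)), inv_inv] at h2
    exact h2

end Run7.h820.UM
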