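import Pool.Agent.Run7.h820.UM.Stm

/-! One stage of the construction. -/

set_option autoImplicit false
open Complex Filter Topology Set Metric MeasureTheory

namespace Run7.h820.UM

open Q90.SM (IsSig marshall pmean circ FF)

theorem WW_norm {φ g A : ℂ → ℂ} {B r : ℝ} {N : ℕ} (hT : Tg φ g A B) (hr : 0 < r) (hN : 1 ≤ N) {z : ℂ} (hz : 1 < ‖z‖) :
    (1 + r) * Real.exp (-(B / N)) ≤ ‖WW A r N z‖ := by
  have hv : z⁻¹ ^ N ∈ ball (0:ℂ) 1 := by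
    rw [mem_ball_zero_iff, norm_pow, norm_inv]
    exact pow_lt_one₀ (by positivity) (inv_lt_one_of_one_lt₀ hz) (by omega)
  have hb := hT.bA _ hv
  have hN0 : (0:ℝ) < N := by exact_mod_cast hN
  have h1 : ‖((1 + r : ℝ) : ℂ)‖ = 1 + r := by
    rw [Complex.norm_real, Real.norm_of_nonneg (by linarith)]
  have h2 : ‖WW A r N z‖ = (1 + r) * (‖z‖ * Real.exp (-(A (z⁻¹ ^ N) / N)).re) := by
    unfold WW
    rw [norm_mul, norm_mul, Complex.norm_exp, ← h1]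
    push_cast
    rfl
  rw [h2]
  have h3 : -(B / N) ≤ (-(A (z⁻¹ ^ N) / N)).re := by
    have e3 : |(-(A (z⁻¹ ^ N) / N)).re| ≤ ‖A (z⁻¹ ^ N) / N‖ := by
      rw [← norm_neg]; exact Complex.abs_re_le_norm _
    have e4 : ‖A (z⁻¹ ^ N) / N‖ ≤ B / N := by
      rw [norm_div, Complex.norm_natCast]
      gcongr
    linarith [(abs_le.1 e3).1]
  have h4 : Real.exp (-(B / N)) ≤ Real.exp (-(A (z⁻¹ ^ N) / N)).re := Real.exp_le_exp.2 h3
  have h5 : Real.exp (-(B / N)) ≤ ‖z‖ * Real.exp (-(A (z⁻¹ ^ N) / N)).re := by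
    have := Real.exp_pos (-(A (z⁻¹ ^ N) / N)).re
    nlinarith
  gcongr

theorem stg (hC : S_CMP) (hN : S_NER) : S_STG := by
  intro ψ h φ g A B η hS hT hη
  obtain ⟨r, hr, N₀, hN₀⟩ := hN ψ h φ g A B η hS hT hη
  set N : ℕ := max N₀ 1 with hNdef
  have hN1 : 1 ≤ N := le_max_right _ _
  obtain ⟨h1, h2⟩ := hN₀ N (le_max_left _ _)
  have hsig := hC ψ h φ g A B r N hS hT hr hN1 h1
  set ρ : ℝ := (1 + r) * Real.exp (-(B / N)) with hρ
  have hρ1 : 1 < ρ := by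
    rw [hρ, Real.exp_neg, ← div_eq_mul_inv, lt_div_iff₀ (Real.exp_pos _), one_mul]
    exact h1
  have hB : 0 ≤ B := (norm_nonneg _).trans (hT.bA 0 (by simp))
  refine ⟨_, _, N, Real.log (ρ ^ 2 / (ρ ^ 2 - 1)) + B, hsig, hN1, add_nonneg (Q90.SM.L_pos hρ1).le hB, h2, ?_⟩
  intro z hz
  have hW := WW_norm hT hr hN1 hz
  rw [← hρ] at hW
  have hv : z⁻¹ ^ N ∈ ball (0:ℂ) 1 := by
    rw [mem_ball_zero_iff, norm_pow, norm_inv]
    exact pow_lt_one₀ (by positivity) (inv_lt_one_of_one_lt₀ hz) (by omega)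
  have hb := hT.bA _ hv
  have e : h (WW A r N z) + g (z ^ N) + ((N:ℂ) - 1) / N * A (z⁻¹ ^ N) - g (z ^ N) =
      h (WW A r N z) + ((N:ℂ) - 1) / N * A (z⁻¹ ^ N) := by ring
  show ‖h (WW A r N z) + g (z ^ N) + ((N:ℂ) - 1) / N * A (z⁻¹ ^ N) - g (z ^ N)‖ ≤ _
  rw [e]
  refine (norm_add_le _ _).trans (add_le_add ?_ ?_)
  · exact (Q90.SM.gol Q90.SM.ext_all hS (hρ1.trans_le hW)).trans (Q90.SM.L_anti hρ1 hW)
  · have hNR : (1:ℝ) ≤ N := by exact_mod_cast hN1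
    have h5 : ‖((N:ℂ) - 1) / N‖ ≤ 1 := by
      have e5 : ((N:ℂ) - 1) / N = (((N:ℝ) - 1) / N : ℝ) := by push_cast; rfl
      rw [e5, Complex.norm_real, Real.norm_of_nonneg (div_nonneg (by linarith) (by linarith)), div_le_one (by linarith)]
      linarith
    calc ‖((N:ℂ) - 1) / N * A (z⁻¹ ^ N)‖ = ‖((N:ℂ) - 1) / N‖ * ‖A (z⁻¹ ^ N)‖ := norm_mul _ _
      _ ≤ 1 * B := by gcongr
      _ = B := one_mul _

end Run7.h820.UM
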