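import Pool.Agent.Run7.h820.SR.Stm

/-!
# Project UM (helper820), hard page MP_16b0ee_an: ONE universal map

Goal: there is a single map `ψ₀ ∈ Σ` such that for every `A > 0` the strong Marshall bound (uniform over the whole class `Σ`) is
equivalent to the bound for this one map `ψ₀` (and to its spectral bound `|t|²/(4A)`).

Construction: `ψ_{k+1}(z) = ψ_k((1+r) T(z)) / (1+r)`, `T(z)^N = φ(z^N)`, with `r > 0` tiny, `N` huge and `φ` the `k`-th map of a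
countable family of bad maps (each of them occurs infinitely often). `ψ_{k+1}` is very close to `ψ_k` away from the circle, but
`log ψ_{k+1}'(z) = log φ'(z^N) + O(1)`. The limit `ψ₀` is as bad as all the `φ`.

Use `v = 1/z`: `Pool.Agent.W677.Mar.hat h 0 v = h (1/v)`, `hat (fun z => ψ z / z) 1 v = v ψ(1/v)`, holomorphic on the disc by
`(Q90.SM.ext_all ψ h hS).1 : Sg (hat (fun z => ψ z / z) 1) (hat h 0)`.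
-/

set_option autoImplicit false
open Complex Filter Topology Set Metric MeasureTheory

namespace Run7.h820.UM

open Q90.SM (IsSig marshall pmean circ FF)

/-- A map of `Σ` of the form `z exp (-A (1/z))` with `A` bounded. -/
structure Tg (φ g A : ℂ → ℂ) (B : ℝ) : Prop where
  sig : IsSig φ g
  dA : DifferentiableOn ℂ A (ball 0 1)
  A0 : A 0 = 0
  bA : ∀ v ∈ ball (0:ℂ) 1, ‖A v‖ ≤ B
  eq : ∀ z : ℂ, 1 < ‖z‖ → φ z = z * Complex.exp (-A z⁻¹)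

/-- `W(z) = (1+r) T(z)`, `T(z)^N = φ(z^N)` -/
noncomputable def WW (A : ℂ → ℂ) (r : ℝ) (N : ℕ) (z : ℂ) : ℂ := (1 + r) * (z * Complex.exp (-(A (z⁻¹ ^ N) / N)))

/-- CMP. Proof: `T z = z exp (-(A (z⁻¹^N)/N))`, `|T z| ≥ exp (-B/N) |z|`, so `‖WW‖ > ‖z‖ > 1`; `T(z)^N = φ (z^N)` gives injectivity
(`T z = T z'` → `φ (z^N) = φ (z'^N)` → `z^N = z'^N` → the exponentials agree → `z = z'`). Derivative:
`T' = exp (-A/N) (1 + z⁻¹^N A'(z⁻¹^N))`, and `φ'(w) = exp (-A w⁻¹) (1 + w⁻¹ A'(w⁻¹)) = exp (g w)`, `w = z^N`, so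
`T' = exp (g (z^N) + (N-1)/N A (z⁻¹^N))`. Limits at infinity: `exp (-(A (v^N)/N))` is holomorphic at `v = 0` with value `1`
(model: Pool/Agent/Run7/h705/SR/SIG.lean or the copy `sig_data` in Pool/Agent/Run7/h820/SR/SIGQ.lean). -/
def S_CMP : Prop := ∀ (ψ h φ g A : ℂ → ℂ) (B r : ℝ) (N : ℕ), IsSig ψ h → Tg φ g A B → 0 < r → 1 ≤ N →
  Real.exp (B / N) < 1 + r →
  IsSig (fun z => ψ (WW A r N z) / (1 + r)) (fun z => h (WW A r N z) + g (z ^ N) + ((N:ℂ) - 1) / N * A (z⁻¹ ^ N))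

/-- NER. Closeness. Proof: with `v = 1/z`, `|v| ≤ 1/(1+η)`, `H v = h (1/v)`, `G v = g (1/v)`, `Y v = v ψ (1/v)` holomorphic on the
disc, `H 0 = G 0 = A 0 = 0`: `1 / WW = v m`, `m = exp (A (v^N)/N) / (1+r)`, `|m| < 1`, `|m - 1|` small. `H`, `Y` are Lipschitz and
bounded on `|v| ≤ 1/(1+η)`; `G (v^N)`, `A (v^N)` are small for large `N` (continuity at `0`). First choose `r`, then `N₀`.
`|v| (ψ (WW)/(1+r) - ψ z) = Y (v m) exp (-(A (v^N)/N)) - Y v` in absolute value. -/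
def S_NER : Prop := ∀ (ψ h φ g A : ℂ → ℂ) (B η : ℝ), IsSig ψ h → Tg φ g A B → 0 < η →
  ∃ r : ℝ, 0 < r ∧ ∃ N₀ : ℕ, ∀ N : ℕ, N₀ ≤ N → Real.exp (B / N) < 1 + r ∧ ∀ z : ℂ, 1 + η ≤ ‖z‖ →
    ‖h (WW A r N z) + g (z ^ N) + ((N:ℂ) - 1) / N * A (z⁻¹ ^ N) - h z‖ ≤ η ∧
    ‖ψ (WW A r N z) / (1 + r) - ψ z‖ ≤ η * ‖z‖

/-- STG. One stage (follows from CMP, NER and Goluzin's bound; done by helper820). -/
def S_STG : Prop := ∀ (ψ h φ g A : ℂ → ℂ) (B η : ℝ), IsSig ψ h → Tg φ g A B → 0 < η →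
  ∃ (ψ' h' : ℂ → ℂ) (N : ℕ) (C : ℝ), IsSig ψ' h' ∧ 1 ≤ N ∧ 0 ≤ C ∧
    (∀ z : ℂ, 1 + η ≤ ‖z‖ → ‖h' z - h z‖ ≤ η ∧ ‖ψ' z - ψ z‖ ≤ η * ‖z‖) ∧
    ∀ z : ℂ, 1 < ‖z‖ → ‖h' z - g (z ^ N)‖ ≤ C

/-- DQ. The lower bound for the difference quotient (Goluzin). Proof: `Sg`-version: for `ζ = 1/w`, `v = 1/z` the function
`NN Y ζ` (Pool.Agent.W677.Mar) is the difference quotient, it has a holomorphic logarithm `A` with `A 0 = 0`, and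
`Run7.h820.SR.t_BND` gives `‖A v‖² ≤ la ‖ζ‖ * la ‖v‖`. -/
def S_DQ : Prop := ∀ (ψ h : ℂ → ℂ), IsSig ψ h → ∀ ρ : ℝ, 1 < ρ → ∀ z w : ℂ, ρ ≤ ‖z‖ → ρ ≤ ‖w‖ →
  ‖z - w‖ * (1 - 1 / ρ ^ 2) ≤ ‖ψ z - ψ w‖

/-- LIM. The limit. Proof: `H_k`, `Y_k` (functions of `v = 1/z`, `Y_k v = v ψ_k (1/v)`, `Y_k 0 = 1`) converge locally uniformly on the
disc (`∑ η k < ∞`; bound on `|v| ≤ 1/(1+η k)`, at `v = 0` the values are constant), the limits are holomorphic;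
`ψ' z = z Y (1/z)`, `h' z = H (1/z)`. Injectivity from DQ (passes to the limit). `exp h' = deriv ψ'`:
`TendstoLocallyUniformlyOn.deriv`. Model for limits: Pool/Agent/Run7/h321/SR/FIX.lean. -/
def S_LIM : Prop := ∀ (ψ h : ℕ → ℂ → ℂ) (η : ℕ → ℝ), (∀ k, IsSig (ψ k) (h k)) → (∀ k, 0 < η k) →
  (∀ k, η (k + 1) ≤ η k / 2) → η 0 ≤ 1 →
  (∀ k, ∀ z : ℂ, 1 + η k ≤ ‖z‖ → ‖h (k + 1) z - h k z‖ ≤ η k ∧ ‖ψ (k + 1) z - ψ k z‖ ≤ η k * ‖z‖) →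
  ∃ ψ' h' : ℂ → ℂ, IsSig ψ' h' ∧ ∀ k, ∀ z : ℂ, 1 + η k ≤ ‖z‖ → ‖h' z - h k z‖ ≤ 2 * η k

/-- REC. The recursion. Proof: the `k`-th stage treats the target `i = k.unpair.1`. State `(ψ_k, h_k, η_k)`, start with
`ψ₁`, `h₁`, `η = min (δ/2) 1`. Apply STG with `η = η_k`: `ψ_{k+1}, h_{k+1}, N, C`. Choose `n ≥ k (C + 3 + log N)`, `n ≥ k`, and then
`η_{k+1} = min (η_k / 2) (exp (1/(N M^n)) - 1)`. For the limit of LIM: `‖h₀ z - h_{k+1} z‖ ≤ 2 η_{k+1} ≤ 2` if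
`‖z‖ = exp (1/(N M^n))`, so `‖h₀ z - g (z^N)‖ ≤ C + 2`. (A sequence of states from `∀ k s, ∃ s', Rel k s s'`: `choose` and `Nat.rec`.) -/
def S_REC : Prop := ∀ (ψ₁ h₁ : ℂ → ℂ) (δ : ℝ), IsSig ψ₁ h₁ → 0 < δ →
  ∀ (φ g A : ℕ → ℂ → ℂ) (B : ℕ → ℝ) (M : ℕ → ℕ), (∀ i, Tg (φ i) (g i) (A i) (B i)) → (∀ i, 2 ≤ M i) →
  ∃ ψ₀ h₀ : ℂ → ℂ, IsSig ψ₀ h₀ ∧ (∀ z : ℂ, 1 + δ ≤ ‖z‖ → ‖h₀ z - h₁ z‖ ≤ δ) ∧
    ∀ (i : ℕ) (K : ℝ), ∃ (N n : ℕ) (C : ℝ), 1 ≤ N ∧ 0 ≤ C ∧ K ≤ n ∧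
    K * (C + 1 + Real.log N) ≤ n ∧ ∀ z : ℂ, ‖z‖ = Real.exp (1 / (N * (M i : ℝ) ^ n)) → ‖h₀ z - g i (z ^ N)‖ ≤ C

/-- PMN. Means of `g (z^N)`. Proof: `circ R θ ^ N = circ (R^N) (N θ)`; the integral over a period of `F (N θ)` is the one of `F`
(`Function.Periodic.intervalIntegral_add_eq`, `intervalIntegral.integral_comp_mul_left`), and `‖exp (t x)‖ ≥ ‖exp (t y)‖ exp (-‖t‖ C)`
if `‖x - y‖ ≤ C`. -/
def S_PMN : Prop := ∀ (ψ h φ g : ℂ → ℂ) (R C : ℝ) (N : ℕ), IsSig ψ h → IsSig φ g → 1 < R → 1 ≤ N →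
  (∀ z : ℂ, ‖z‖ = R → ‖h z - g (z ^ N)‖ ≤ C) → ∀ t : ℂ, Real.exp (-(‖t‖ * C)) * pmean t (R ^ N) g ≤ pmean t R h

end Run7.h820.UM
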