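import Pool.Agent.Run7.h820.UM.Stm
import Pool.Agent.Run7.h820.SR.Tfae
import Pool.Agent.Run7.h820.SR.JMain

/-! The universal map. -/

set_option autoImplicit false
open Complex Filter Topology Set Metric MeasureTheory

namespace Run7.h820.UM

open Q90.SM (IsSig marshall pmean circ FF)
open Run7.h820.SR
open Pool.Agent.TH325.SI (mn em la)
open Pool.Agent.W677.Mar (Sg IsG0 NN hat)

theorem sig_id : IsSig (fun z => z) (fun _ => 0) := by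
  refine ⟨differentiable_id.differentiableOn, fun a _ b _ h => h, ⟨0, ?_⟩, differentiableOn_const 0, ?_, tendsto_const_nhds⟩
  · simp
  · intro z _
    simp

theorem tg_id : Tg (fun z => z) (fun _ => 0) (fun _ => 0) 0 :=
  ⟨sig_id, differentiableOn_const 0, rfl, fun v _ => by simp, fun z _ => by simp⟩

/-- the lower bounds of a bad map -/
def Good (M : ℕ) (q C δ : ℝ) (s : ℂ) (g : ℂ → ℂ) : Prop :=
  ∀ t : ℂ, ‖t - s‖ ≤ δ → ∀ n : ℕ, Real.exp (-C) * q ^ n ≤ pmean t (Real.exp (1 / (M:ℝ) ^ n)) g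

/-- what a universal map satisfies -/
def Uni (h₀ : ℂ → ℂ) : Prop := ∀ (M B C : ℕ) (q δ a b : ℚ) (φ g A : ℂ → ℂ), 2 ≤ M → 0 < q → Tg φ g A B →
  Good M q C δ ((a:ℂ) + (b:ℂ) * I) g → ∀ (t : ℂ) (p : ℝ), ‖t - ((a:ℂ) + (b:ℂ) * I)‖ ≤ δ → 0 ≤ p →
  (∀ᶠ R in 𝓝[>] (1:ℝ), pmean t R h₀ ≤ (1 / (R - 1)) ^ p) → Real.log q ≤ p * Real.log M

theorem uni (hR : S_REC) (hP : S_PMN) {ψ₁ h₁ : ℂ → ℂ} {δ₁ : ℝ} (hS : IsSig ψ₁ h₁) (hδ₁ : 0 < δ₁) :
    ∃ ψ₀ h₀ : ℂ → ℂ, IsSig ψ₀ h₀ ∧ (∀ z : ℂ, 1 + δ₁ ≤ ‖z‖ → ‖h₀ z - h₁ z‖ ≤ δ₁) ∧ Uni h₀ := by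
  obtain ⟨f, hf⟩ := exists_surjective_nat (ℕ × ℕ × ℕ × ℚ × ℚ × ℚ × ℚ)
  have hch : ∀ i : ℕ, ∃ (φ g A : ℂ → ℂ) (B : ℝ) (M : ℕ), Tg φ g A B ∧ 2 ≤ M ∧
      ((∃ φ' g' A' : ℂ → ℂ, 2 ≤ (f i).1 ∧ Tg φ' g' A' (f i).2.1 ∧ Good (f i).1 (f i).2.2.2.1 (f i).2.2.1 (f i).2.2.2.2.1
        (((f i).2.2.2.2.2.1 : ℂ) + ((f i).2.2.2.2.2.2 : ℂ) * I) g') →
        M = (f i).1 ∧ Good (f i).1 (f i).2.2.2.1 (f i).2.2.1 (f i).2.2.2.2.1
        (((f i).2.2.2.2.2.1 : ℂ) + ((f i).2.2.2.2.2.2 : ℂ) * I) g) := by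
    intro i
    by_cases h : ∃ φ' g' A' : ℂ → ℂ, 2 ≤ (f i).1 ∧ Tg φ' g' A' (f i).2.1 ∧ Good (f i).1 (f i).2.2.2.1 (f i).2.2.1 (f i).2.2.2.2.1
        (((f i).2.2.2.2.2.1 : ℂ) + ((f i).2.2.2.2.2.2 : ℂ) * I) g'
    · obtain ⟨φ', g', A', h1, h2, h3⟩ := h
      exact ⟨φ', g', A', _, (f i).1, h2, h1, fun _ => ⟨rfl, h3⟩⟩
    · exact ⟨_, _, _, 0, 2, tg_id, le_rfl, fun hh => absurd hh h⟩
  choose φ g A B M hT hM hG using hch
  obtain ⟨ψ₀, h₀, hS₀, hcl, hK⟩ := hR ψ₁ h₁ δ₁ hS hδ₁ φ g A B M hT hM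
  refine ⟨ψ₀, h₀, hS₀, hcl, ?_⟩
  intro M' B' C' q δ a b φ' g' A' hM' hq hT' hG' t p ht hp hev
  obtain ⟨i, hi⟩ := hf (M', B', C', q, δ, a, b)
  have hGi := hG i
  rw [hi] at hGi
  obtain ⟨hMi, hGi⟩ := hGi ⟨φ', g', A', hM', hT', hG'⟩
  have hMi' : M i = M' := hMi
  have hGi' : Good M' q C' δ ((a:ℂ) + (b:ℂ) * I) (g i) := hGi
  have hlow := hGi' t ht
  have hq' : (0:ℝ) < q := by exact_mod_cast hq
  have hMR : (2:ℝ) ≤ M' := by exact_mod_cast hM'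
  -- radii
  obtain ⟨ε, hε, hev'⟩ : ∃ ε : ℝ, 0 < ε ∧ ∀ R : ℝ, 1 < R → R < 1 + ε → pmean t R h₀ ≤ (1 / (R - 1)) ^ p := by
    rw [eventually_nhdsWithin_iff, Metric.eventually_nhds_iff] at hev
    obtain ⟨ε, hε, h⟩ := hev
    refine ⟨ε, hε, fun R h1 h2 => h ?_ h1⟩
    rw [Real.dist_eq, abs_lt]
    constructor <;> linarith
  set D : ℝ := p + ‖t‖ + C' with hD
  have hD0 : 0 ≤ D := by positivity
  -- the inequality for every large K
  have key : ∀ K : ℝ, 1 < K → 1 / K < Real.log (1 + ε) → Real.log q ≤ p * Real.log M' + D / K := by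
    intro K hK1 hKε
    obtain ⟨N, n, C, hN, hC, hKn, hKC, hz⟩ := hK i K
    rw [hMi'] at hz
    have hN0 : (1:ℝ) ≤ N := by exact_mod_cast hN
    have hn0 : (0:ℝ) < n := by linarith
    have hMn : (n:ℝ) ≤ (M':ℝ) ^ n := by
      have h1 : n < 2 ^ n := Nat.lt_two_pow_self
      have h2 : (n:ℝ) < 2 ^ n := by exact_mod_cast h1
      have h3 : (2:ℝ) ^ n ≤ (M':ℝ) ^ n := by gcongr
      linarith
    have hX : (0:ℝ) < N * (M':ℝ) ^ n := by positivity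
    have hKX : K ≤ N * (M':ℝ) ^ n := by nlinarith
    set R : ℝ := Real.exp (1 / (N * (M':ℝ) ^ n)) with hRdef
    have hR1 : 1 < R := Real.one_lt_exp_iff.2 (by positivity)
    have hRε : R < 1 + ε := by
      rw [hRdef, ← Real.lt_log_iff_exp_lt (by linarith)]
      refine lt_of_le_of_lt ?_ hKε
      exact one_div_le_one_div_of_le (by linarith) hKX
    have h1 := hev' R hR1 hRε
    have h2 := hP ψ₀ h₀ (φ i) (g i) R C N hS₀ (hT i).sig hR1 hN (fun z hz' => hz z hz') t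
    have hRN : R ^ N = Real.exp (1 / (M':ℝ) ^ n) := by
      rw [hRdef, ← Real.exp_nat_mul]
      congr 1
      field_simp
    rw [hRN] at h2
    have h3 := hlow n
    have h4 : (1 / (R - 1)) ^ p ≤ (N * (M':ℝ) ^ n) ^ p := by
      apply Real.rpow_le_rpow (by have : 0 < R - 1 := by linarith
                                  positivity) _ hp
      rw [div_le_iff₀ (by linarith)]
      have h5 := Real.add_one_le_exp (1 / (N * (M':ℝ) ^ n))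
      have h6 : (1 / (N * (M':ℝ) ^ n)) ≤ R - 1 := by rw [hRdef]; linarith
      calc (1:ℝ) = (N * (M':ℝ) ^ n) * (1 / (N * (M':ℝ) ^ n)) := by field_simp
        _ ≤ (N * (M':ℝ) ^ n) * (R - 1) := by gcongr
    have h5 : Real.exp (-(‖t‖ * C)) * (Real.exp (-C') * (q:ℝ) ^ n) ≤ (N * (M':ℝ) ^ n) ^ p := by
      refine le_trans ?_ (h2.trans (h1.trans h4))
      gcongr
    have h6 := Real.log_le_log (by positivity) h5
    rw [Real.log_mul (by positivity) (by positivity), Real.log_exp, Real.log_mul (by positivity) (by positivity), Real.log_exp,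
      Real.log_pow, Real.log_rpow hX, Real.log_mul (by positivity) (by positivity), Real.log_pow] at h6
    have hlN : 0 ≤ Real.log N := Real.log_nonneg hN0
    have h7 : (n:ℝ) * (Real.log q - p * Real.log M') ≤ D * (C + 1 + Real.log N) := by
      have e1 : 0 ≤ p * (C + 1) := by positivity
      have e2 : 0 ≤ ‖t‖ * (1 + Real.log N) := by positivity
      have e3 : 0 ≤ (C':ℝ) * (C + Real.log N) := by positivity
      rw [hD]
      nlinarith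
    have h8 : (n:ℝ) * (Real.log q - p * Real.log M') ≤ D * (n / K) := by
      refine h7.trans ?_
      gcongr
      rw [le_div_iff₀ (by linarith)]
      linarith
    have h9 : Real.log q - p * Real.log M' ≤ D / K := by
      have e : D * ((n:ℝ) / K) = n * (D / K) := by ring
      rw [e] at h8
      exact le_of_mul_le_mul_left h8 hn0
    linarith
  apply le_of_forall_pos_le_add
  intro x hx
  have hl : 0 < Real.log (1 + ε) := Real.log_pos (by linarith)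
  set K : ℝ := max (2:ℝ) (max (2 / Real.log (1 + ε)) (D / x + 1)) with hKdef
  have hK2 : 2 ≤ K := le_max_left _ _
  have hK3 : 2 / Real.log (1 + ε) ≤ K := (le_max_left _ _).trans (le_max_right _ _)
  have hK4 : D / x + 1 ≤ K := (le_max_right _ _).trans (le_max_right _ _)
  have h1 := key K (by linarith) (by
    rw [div_lt_iff₀ (by linarith)]
    rw [div_le_iff₀ hl] at hK3
    linarith)
  have h2 : D / K ≤ x := by
    rw [div_le_iff₀ (by linarith)]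
    have h3 : D / x ≤ K := by linarith
    rw [div_le_iff₀ hx] at h3
    linarith
  linarith

theorem J1_pos {κ B : ℝ} {γ ℓ : ℂ → ℂ} (hb : Blk κ B γ ℓ) (t : ℂ) : 0 < J1 t ℓ := by
  unfold J1
  apply mul_pos (by positivity)
  apply intervalIntegral.intervalIntegral_pos_of_pos_on
  · exact (J1_cont hb t).intervalIntegrable _ _
  · intro θ _
    exact Real.exp_pos _
  · positivity

theorem J1_lip {κ B : ℝ} {γ ℓ : ℂ → ℂ} (hb : Blk κ B γ ℓ) (t t' : ℂ) :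
    Real.exp (-(‖t' - t‖ * B)) * J1 t ℓ ≤ J1 t' ℓ := by
  have hpi : 0 < 2 * Real.pi := by positivity
  unfold J1
  have h1 : ∫ θ in (0:ℝ)..(2 * Real.pi), Real.exp (-(‖t' - t‖ * B)) * Real.exp (t * ℓ (circleMap 0 1 θ)).re ≤
      ∫ θ in (0:ℝ)..(2 * Real.pi), Real.exp (t' * ℓ (circleMap 0 1 θ)).re := by
    apply intervalIntegral.integral_mono_on hpi.le
    · exact (continuous_const.mul (J1_cont hb t)).intervalIntegrable _ _
    · exact (J1_cont hb t').intervalIntegrable _ _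
    · intro θ _
      rw [← Real.exp_add]
      apply Real.exp_le_exp.2
      have hu : ‖circleMap 0 1 θ‖ ≤ Real.exp κ := by
        have : ‖circleMap 0 1 θ‖ = 1 := by simp
        rw [this]
        exact Real.one_le_exp hb.κ0.le
      have h2 : (t * ℓ (circleMap 0 1 θ)).re - (t' * ℓ (circleMap 0 1 θ)).re ≤ ‖t' - t‖ * B := by
        rw [← Complex.sub_re, ← sub_mul]
        refine (Complex.re_le_norm _).trans ?_
        rw [norm_mul, norm_sub_rev]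
        gcongr
        exact hb.bℓ _ hu
      linarith
  rw [intervalIntegral.integral_const_mul] at h1
  calc Real.exp (-(‖t' - t‖ * B)) * ((2 * Real.pi)⁻¹ * ∫ θ in (0:ℝ)..(2 * Real.pi), Real.exp (t * ℓ (circleMap 0 1 θ)).re)
      = (2 * Real.pi)⁻¹ * (Real.exp (-(‖t' - t‖ * B)) * ∫ θ in (0:ℝ)..(2 * Real.pi), Real.exp (t * ℓ (circleMap 0 1 θ)).re) := by ring
    _ ≤ _ := by gcongr

/-- the block of a map -/
theorem blockU (P : Pcs) {ψ h : ℂ → ℂ} (hS : IsSig ψ h) {κ : ℝ} (t : ℂ) {N : ℕ} (hκ : 0 < κ) (hκ1 : κ ≤ 1)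
    (hN : 16 * (3 * bb κ) ^ 2 / κ ≤ N) :
    2 ≤ N ∧ ∃ (γ ℓ φ g A : ℂ → ℂ) (C : ℝ), Blk κ (3 * bb κ) γ ℓ ∧ Tg φ g A (2 * (3 * bb κ)) ∧ 0 ≤ C ∧
      pmean t (Real.exp (3 * κ)) h * Real.exp (-(‖t‖ * Real.sqrt (2 * la (Real.exp (-3 * κ)) + 4))) ≤ J1 t ℓ ∧
      ∀ (t' : ℂ) (n : ℕ), Real.exp (-(‖t'‖ * (C + 2 * n))) * J1 t' ℓ ^ n ≤ pmean t' (Real.exp (1 / (N:ℝ) ^ n)) g := by
  have hx := Q90.SM.ext_all ψ h hS
  have hR : 1 < Real.exp (3 * κ) := Real.one_lt_exp_iff.2 (by linarith)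
  obtain ⟨γ, ℓ, hB, hJ⟩ := P.DAT _ _ κ t hx.1 hκ hκ1
  have hinv : (Real.exp (3 * κ))⁻¹ = Real.exp (-3 * κ) := by
    rw [← Real.exp_neg]
    congr 1
    ring
  have e1 : pmean t (Real.exp (3 * κ)) h = mn (FF t (hat h 0)) (Real.exp (-3 * κ)) := by
    rw [hx.2.2 t _ hR, hinv]
  rw [← e1] at hJ
  obtain ⟨A, hA1, hA2, hA3, hA4⟩ := P.FIX κ _ γ ℓ N hB hN
  have hFx : Fx κ (3 * bb κ) γ ℓ N A := ⟨hB, hN, hA1, hA2, hA3, hA4⟩
  have hinj := P.INJ _ _ _ _ _ _ hFx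
  obtain ⟨E, hE1, hE2, hE3, hE4⟩ := P.LOG _ _ _ _ _ _ hFx
  obtain ⟨hS', hN2, -, -, -, -⟩ := sig_data hFx hinj hE1 hE2 hE3
  obtain ⟨C', hC', hlow⟩ := P.LOW _ _ _ _ _ _ _ (fun z => E z⁻¹ - A z⁻¹) hFx hE1 hE4 (fun z _ => rfl)
  exact ⟨hN2, γ, ℓ, _, _, A, C', hB, ⟨hS', hA1, hA2, hA3, fun z _ => rfl⟩, hC', hJ, hlow⟩

theorem mainU (P : Pcs) {h₀ : ℂ → ℂ} (hU : Uni h₀) {A : ℝ} (hA : 0 < A)
    (hyp : ∀ t : ℂ, ‖t‖ < 2 * A → ∀ ε : ℝ, 0 < ε → ∀ᶠ R in 𝓝[>] (1:ℝ), pmean t R h₀ ≤ (1 / (R - 1)) ^ (‖t‖ ^ 2 / (4 * A) + ε))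
    {ψ h : ℂ → ℂ} (hS : IsSig ψ h) {κ : ℝ} {t : ℂ} {N : ℕ} (hκ : 0 < κ) (hκ1 : κ ≤ 1) (ht : ‖t‖ < 2 * A)
    (hN : 16 * (3 * bb κ) ^ 2 / κ ≤ N) :
    Real.log (pmean t (Real.exp (3 * κ)) h) ≤
      ‖t‖ ^ 2 / (4 * A) * Real.log N + 2 * ‖t‖ + ‖t‖ * Real.sqrt (2 * la (Real.exp (-3 * κ)) + 4) := by
  obtain ⟨hN2, γ, ℓ, φ, g, A', C, hb, hT, hC, hJ, hlow⟩ := blockU P hS t hκ hκ1 hN
  have hR : 1 < Real.exp (3 * κ) := Real.one_lt_exp_iff.2 (by linarith)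
  have hp := pmean_pos hS t hR
  have hJ0 := J1_pos hb t
  have hB1 := hb.B1
  have hN2R : (2:ℝ) ≤ N := by exact_mod_cast hN2
  have hlN : 0 < Real.log N := Real.log_pos (by linarith)
  have hkey : Real.log (J1 t ℓ) - 2 * ‖t‖ ≤ ‖t‖ ^ 2 / (4 * A) * Real.log N := by
    by_contra hcon
    push Not at hcon
    set x : ℝ := Real.log (J1 t ℓ) - 2 * ‖t‖ with hx
    set y : ℝ := ‖t‖ ^ 2 / (4 * A) * Real.log N with hy
    set gap : ℝ := x - y with hgap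
    have hgap0 : 0 < gap := by rw [hgap]; linarith
    obtain ⟨q, hq1, hq2⟩ := exists_rat_btwn (Real.exp_lt_exp.2 (by linarith : y + gap / 2 < x))
    have hq0 : (0:ℝ) < q := (Real.exp_pos _).trans hq1
    have hlq1 : y + gap / 2 < Real.log q := (Real.lt_log_iff_exp_lt hq0).2 hq1
    have hlq2 : Real.log q < x := (Real.log_lt_iff_lt_exp hq0).2 hq2
    set B : ℝ := 3 * bb κ with hBdef
    obtain ⟨δ, hδ1, hδ2⟩ := exists_rat_btwn (show (0:ℝ) < min 1 ((x - Real.log q) / (4 + 2 * B)) by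
      apply lt_min one_pos
      apply div_pos (by linarith) (by linarith))
    have hδ3 : (δ:ℝ) < 1 := hδ2.trans_le (min_le_left _ _)
    have hδ4 : (δ:ℝ) * (4 + 2 * B) < x - Real.log q := by
      have := hδ2.trans_le (min_le_right _ _)
      rwa [lt_div_iff₀ (by linarith)] at this
    obtain ⟨a, b, hab⟩ := gauss_dense t (ε := δ) hδ1
    set s : ℂ := (a:ℂ) + (b:ℂ) * I with hs
    obtain ⟨Cn, hCn⟩ := exists_nat_ge ((‖t‖ + 2) * C)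
    obtain ⟨Bn, hBn⟩ := exists_nat_ge (2 * B)
    have hT' : Tg φ g A' Bn := ⟨hT.sig, hT.dA, hT.A0, fun v hv => (hT.bA v hv).trans hBn, hT.eq⟩
    have hG : Good N q Cn δ s g := by
      intro t' ht' n
      refine le_trans ?_ (hlow t' n)
      have h1 : ‖t' - t‖ ≤ 2 * δ := by
        calc ‖t' - t‖ = ‖(t' - s) + (s - t)‖ := by congr 1; ring
          _ ≤ ‖t' - s‖ + ‖s - t‖ := norm_add_le _ _
          _ ≤ 2 * δ := by linarith
      have h2 : ‖t'‖ ≤ ‖t‖ + 2 * δ := by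
        have := norm_add_le t (t' - t)
        rw [add_sub_cancel] at this
        linarith
      have h3 : Real.exp (-(2 * δ * B)) * J1 t ℓ ≤ J1 t' ℓ := by
        refine le_trans ?_ (J1_lip hb t t')
        gcongr
      have h4 : (q:ℝ) ≤ Real.exp (-(2 * ‖t'‖)) * J1 t' ℓ := by
        have h5 : Real.exp (-(2 * (‖t‖ + 2 * δ))) * (Real.exp (-(2 * δ * B)) * J1 t ℓ) ≤ Real.exp (-(2 * ‖t'‖)) * J1 t' ℓ := by
          gcongr
        refine le_trans ?_ h5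
        rw [← Real.exp_log hq0, ← Real.exp_log hJ0, ← Real.exp_add, ← Real.exp_add]
        apply Real.exp_le_exp.2
        nlinarith
      have e : Real.exp (-(‖t'‖ * (C + 2 * n))) * J1 t' ℓ ^ n = Real.exp (-(‖t'‖ * C)) * (Real.exp (-(2 * ‖t'‖)) * J1 t' ℓ) ^ n := by
        rw [mul_pow, ← Real.exp_nat_mul, ← mul_assoc, ← Real.exp_add]
        congr 2
        ring
      rw [e]
      have h6 : Real.exp (-(Cn:ℝ)) ≤ Real.exp (-(‖t'‖ * C)) := by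
        apply Real.exp_le_exp.2
        have : ‖t'‖ * C ≤ (‖t‖ + 2) * C := by
          gcongr
          linarith
        linarith
      gcongr
    have hε : 0 < gap / (3 * Real.log N) := by positivity
    have h7 := hU N Bn Cn q δ a b φ g A' hN2 (by exact_mod_cast hq0) hT' hG t (‖t‖ ^ 2 / (4 * A) + gap / (3 * Real.log N))
      (by rw [norm_sub_rev]; exact hab) (by positivity) (hyp t ht _ hε)
    have e : (‖t‖ ^ 2 / (4 * A) + gap / (3 * Real.log N)) * Real.log N = y + gap / 3 := by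
      rw [hy]
      field_simp
    rw [e] at h7
    linarith
  have h1 := Real.log_le_log (by positivity) hJ
  rw [Real.log_mul hp.ne' (by positivity), Real.log_exp] at h1
  linarith

/-- Young's inequality, eventually -/
theorem q45e {A : ℝ} (hA : 0 < A) {ψ h : ℂ → ℂ} (hS : IsSig ψ h)
    (hyp : ∀ a : ℝ, 0 < a → a < A → ∀ ε : ℝ, 0 < ε → ∀ᶠ R in 𝓝[>] (1:ℝ), marshall a R h ≤ (1 / (R - 1)) ^ ε) (t : ℂ)
    {ε : ℝ} (hε : 0 < ε) :
    ∀ᶠ R in 𝓝[>] (1:ℝ), pmean t R h ≤ (1 / (R - 1)) ^ (‖t‖ ^ 2 / (4 * A) + ε) := by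
  obtain ⟨c, hc, hct⟩ := exists_c (T := ‖t‖) hA (half_pos hε)
  have hc0 : 0 < c := lt_trans (by positivity) hc
  set a : ℝ := 1 / (4 * c) with ha
  have ha0 : 0 < a := by rw [ha]; positivity
  have haA : a < A := by
    rw [ha, div_lt_iff₀ (by positivity)]
    rw [div_lt_iff₀ (by positivity)] at hc
    linarith
  have hac : ‖t‖ ^ 2 / (4 * a) = c * ‖t‖ ^ 2 := by
    rw [ha]
    field_simp
  filter_upwards [hyp a ha0 haA (ε / 2) (half_pos hε), ev_large 0 one_pos] with R h1 h2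
  obtain ⟨-, hR1, hR2⟩ := h2
  have h3 : 0 < R - 1 := by linarith
  have hb := one_le_b hR1 hR2
  obtain ⟨hq1, hq2⟩ := q_le hR1 hR2
  have e : ‖t‖ ^ 2 / (4 * A) + ε = ε / 2 + (‖t‖ ^ 2 / (4 * A) + ε / 2) := by ring
  have h4 : Real.exp (‖t‖ ^ 2 / (4 * a) * Real.log (R ^ 2 / (R ^ 2 - 1))) ≤ (1 / (R - 1)) ^ (‖t‖ ^ 2 / (4 * A) + ε / 2) := by
    have h5 : Real.exp (‖t‖ ^ 2 / (4 * a) * Real.log (R ^ 2 / (R ^ 2 - 1))) = (R ^ 2 / (R ^ 2 - 1)) ^ (c * ‖t‖ ^ 2) := by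
      rw [Real.rpow_def_of_pos (by linarith), hac, mul_comm]
    rw [h5]
    refine (Real.rpow_le_rpow (by linarith) hq2 (by positivity)).trans ?_
    exact Real.rpow_le_rpow_of_exponent_le hb hct
  rw [e, Real.rpow_add (by positivity)]
  refine (young hS t ha0 hR1).trans ?_
  gcongr

/-- **the universal map** -/
theorem tfae_U (P : Pcs) {ψ₀ h₀ : ℂ → ℂ} (hS : IsSig ψ₀ h₀) (hU : Uni h₀) {A : ℝ} (hA : 0 < A) : List.TFAE [
    ∀ a : ℝ, 0 < a → a < A → ∃ C R₀ : ℝ, 1 < R₀ ∧ ∀ R : ℝ, 1 < R → R < R₀ → ∀ ψ h : ℂ → ℂ, IsSig ψ h → marshall a R h ≤ C,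
    ∀ a : ℝ, 0 < a → a < A → ∃ C : ℝ, ∀ᶠ R in 𝓝[>] (1:ℝ), marshall a R h₀ ≤ C,
    ∀ a : ℝ, 0 < a → a < A → ∀ ε : ℝ, 0 < ε → ∀ᶠ R in 𝓝[>] (1:ℝ), marshall a R h₀ ≤ (1 / (R - 1)) ^ ε,
    ∀ t : ℂ, ‖t‖ < 2 * A → ∀ ε : ℝ, 0 < ε → ∀ᶠ R in 𝓝[>] (1:ℝ), pmean t R h₀ ≤ (1 / (R - 1)) ^ (‖t‖ ^ 2 / (4 * A) + ε)] := by
  tfae_have 1 → 2 := by
    intro h1 a ha haA
    obtain ⟨C, R₀, hR₀, hC⟩ := h1 a ha haA
    refine ⟨C, ?_⟩
    have h2 : ∀ᶠ R in 𝓝[>] (1:ℝ), R < R₀ := mem_nhdsWithin_of_mem_nhds (Iio_mem_nhds hR₀)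
    filter_upwards [h2, self_mem_nhdsWithin] with R hb hc
    exact hC R hc hb ψ₀ h₀ hS
  tfae_have 2 → 3 := by
    intro h2 a ha haA ε hε
    obtain ⟨C, hC⟩ := h2 a ha haA
    filter_upwards [hC, ev_large C hε] with R ha hb
    exact ha.trans hb.1
  tfae_have 3 → 4 := by
    intro h3 t _ ε hε
    exact q45e hA hS h3 t hε
  tfae_have 4 → 1 := by
    intro h4 a ha haA
    have hE : Expl A := fun _ _ hS' _ h0 h1 _ ht => mainU P hU hA h4 hS' h0 h1 ht (Nat.le_ceil _)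
    obtain ⟨C, R₀, hR₀, hC⟩ := q1A hA hE a ha haA
    exact ⟨C, R₀, hR₀, fun R hR hR' ψ h hS => hC R hR hR' ψ (Set.mem_univ _) h hS⟩
  tfae_finish

end Run7.h820.UM
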